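import Pool.Agent.H574R3.CS.Defs

/-! Basic facts on the normal form: naturality, expansions on lines. -/

set_option autoImplicit false

namespace Pool.Agent.H897R.CS

open Polynomial Pool.Agent.H574R3.CS

section
variable {K : Type} [Field K] {A : Type} [CommRing A] [Algebra K A]

theorem F_map (n : NF K) {B : Type} [CommRing B] [Algebra K B] (φ : A →ₐ[K] B) (X Y Z W : A) :
    φ (n.F X Y Z W) = n.F (φ X) (φ Y) (φ Z) (φ W) := by
  simp only [NF.F, map_add, map_mul, map_pow, AlgHom.commutes]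

theorem DF_map (n : NF K) {B : Type} [CommRing B] [Algebra K B] (φ : A →ₐ[K] B)
    (X Y Z W X' Y' Z' W' : A) :
    φ (n.DF X Y Z W X' Y' Z' W') =
      n.DF (φ X) (φ Y) (φ Z) (φ W) (φ X') (φ Y') (φ Z') (φ W') := by
  simp only [NF.DF, map_add, map_mul, map_pow, AlgHom.commutes, map_ofNat]

theorem F_comb (n : NF K) (X Y Z W X' Y' Z' W' α β : A) :
    n.F (α * X + β * X') (α * Y + β * Y') (α * Z + β * Z') (α * W + β * W') =
      α ^ 3 * n.F X Y Z W + α ^ 2 * β * n.DF X Y Z W X' Y' Z' W' +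
        α * β ^ 2 * n.DF X' Y' Z' W' X Y Z W + β ^ 3 * n.F X' Y' Z' W' := by
  simp only [NF.F, NF.DF]
  ring

/-- third point of the tangent line at `y` in direction `δ` -/
theorem F_tangent (n : NF K) (X Y Z W X' Y' Z' W' : A) (h0 : n.F X Y Z W = 0)
    (h1 : n.DF X Y Z W X' Y' Z' W' = 0) :
    n.F (n.F X' Y' Z' W' * X + (-(n.DF X' Y' Z' W' X Y Z W)) * X')
      (n.F X' Y' Z' W' * Y + (-(n.DF X' Y' Z' W' X Y Z W)) * Y')
      (n.F X' Y' Z' W' * Z + (-(n.DF X' Y' Z' W' X Y Z W)) * Z')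
      (n.F X' Y' Z' W' * W + (-(n.DF X' Y' Z' W' X Y Z W)) * W') = 0 := by
  rw [F_comb, h0, h1]
  ring

/-- third point of the line through two points -/
theorem F_chord (n : NF K) (X Y Z W X' Y' Z' W' : A) (h0 : n.F X Y Z W = 0)
    (h1 : n.F X' Y' Z' W' = 0) :
    n.F (n.DF X' Y' Z' W' X Y Z W * X + (-(n.DF X Y Z W X' Y' Z' W')) * X')
      (n.DF X' Y' Z' W' X Y Z W * Y + (-(n.DF X Y Z W X' Y' Z' W')) * Y')
      (n.DF X' Y' Z' W' X Y Z W * Z + (-(n.DF X Y Z W X' Y' Z' W')) * Z')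
      (n.DF X' Y' Z' W' X Y Z W * W + (-(n.DF X Y Z W X' Y' Z' W')) * W') = 0 := by
  rw [F_comb, h0, h1]
  ring

theorem F_smul (n : NF K) (c X Y Z W : A) :
    n.F (c * X) (c * Y) (c * Z) (c * W) = c ^ 3 * n.F X Y Z W := by
  simp only [NF.F]
  ring

end

/-- criterion for a curve through `e3` -/
theorem curve_of {K : Type} [Field K] (a : Ten K) (n : NF K) (hn : IsNF a n)
    (P0 P1 P2 P3 : K[X]) (hF : n.F P0 P1 P2 P3 = 0)
    (t c : AlgebraicClosure K) (hc : c ≠ 0) (h0 : aeval t P0 = 0) (h1 : aeval t P1 = 0)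
    (h2 : aeval t P2 = 0) (h3 : aeval t P3 = c) (hne : P0 ≠ 0 ∨ P1 ≠ 0 ∨ P2 ≠ 0) :
    Curve a e3 := by
  refine ⟨![P0, P1, P2, P3], ?_, ⟨t, c, hc, ?_⟩, ?_⟩
  · rw [hn.1]; simpa using hF
  · intro i
    fin_cases i <;> simp [e3, h0, h1, h2, h3]
  · rcases hne with h | h | h
    · exact ⟨3, 0, by simpa [e3] using h⟩
    · exact ⟨3, 1, by simpa [e3] using h⟩
    · exact ⟨3, 2, by simpa [e3] using h⟩

end Pool.Agent.H897R.CS
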