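import Pool.Agent.H897R.CS.Basic

/-! Tangent section = two conjugate lines through `x` and a third line. -/

set_option autoImplicit false

namespace Pool.Agent.H897R.CS

open Polynomial Pool.Agent.H574R3.CS

section
variable {K : Type} [Field K]

/-- anisotropic binary quadratic forms over perfect fields have nonzero discriminant -/
theorem disc_ne [PerfectField K] (q1 q2 q3 : K)
    (h : ∀ X Y : K, q1 * X ^ 2 + q2 * (X * Y) + q3 * Y ^ 2 = 0 → X = 0 ∧ Y = 0) :
    q2 ^ 2 - 4 * q1 * q3 ≠ 0 := by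
  intro hd
  have hq1 : q1 ≠ 0 := by
    intro h1
    have := h 1 0 (by rw [h1]; ring)
    exact one_ne_zero this.1
  by_cases h2 : (2 : K) = 0
  · have hc : CharP K 2 := CharTwo.of_one_ne_zero_of_two_eq_zero one_ne_zero h2
    have hq2 : q2 = 0 := by
      have : q2 ^ 2 = 0 := by linear_combination hd + 2 * q1 * q3 * h2
      exact pow_eq_zero_iff (two_ne_zero) |>.1 this
    have hp : PerfectRing K 2 := PerfectField.toPerfectRing 2
    obtain ⟨s, hs⟩ := surjective_frobenius K 2 (q3 / q1)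
    rw [frobenius_def] at hs
    have := h s 1 (by
      rw [hq2, hs]
      field_simp
      linear_combination q3 * h2)
    exact one_ne_zero this.2
  · have := h (-q2) (2 * q1) (by linear_combination (-q1) * hd)
    have h3 : (2 : K) * q1 = 0 := this.2
    rcases mul_eq_zero.1 h3 with h3 | h3
    · exact h2 h3
    · exact hq1 h3

variable (n : NF K)

/-- the quadratic form `Q(s,1)` -/
noncomputable def nn : K[X] := C n.q1 * X ^ 2 + C n.q2 * X + C n.q3

end

/-- Case A -/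
theorem caseA {K : Type} [Field K] [PerfectField K] (a : Ten K) (n : NF K) (hn : IsNF a n)
    (hs : Smooth a)
    (hq : ∀ X Y : K, n.q1 * X ^ 2 + n.q2 * (X * Y) + n.q3 * Y ^ 2 = 0 → X = 0 ∧ Y = 0)
    (hp : ∃ p0 p1 : K, n.a = n.q1 * p0 ∧ n.b = n.q2 * p0 + n.q1 * p1 ∧
      n.c = n.q3 * p0 + n.q2 * p1 ∧ n.d = n.q3 * p1) : Curve a e3 := by
  obtain ⟨p0, p1, ha, hb, hc, hd⟩ := hp
  have hdisc := disc_ne n.q1 n.q2 n.q3 hq
  have hq1 : n.q1 ≠ 0 := by
    intro h1
    have := hq 1 0 (by rw [h1]; ring)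
    exact one_ne_zero this.1
  -- a root of `Q(s,1)` in the closure
  obtain ⟨N, hN⟩ : ∃ q : K[X], q = C n.q1 * X ^ 2 + C n.q2 * X + C n.q3 := ⟨_, rfl⟩
  have hNdeg : N.degree = 2 := by
    rw [hN]
    exact degree_quadratic hq1
  obtain ⟨s, hsN⟩ := IsAlgClosed.exists_aeval_eq_zero (AlgebraicClosure K) N (by
    rw [hNdeg]; exact two_ne_zero)
  have hN0 : N ≠ 0 := by
    intro h; rw [h] at hNdeg; simp at hNdeg
  -- the ingredients
  obtain ⟨y0, hy0⟩ : ∃ q : K[X], q = C n.q1 * X ^ 2 - C n.q3 := ⟨_, rfl⟩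
  obtain ⟨y1, hy1⟩ : ∃ q : K[X], q = 2 * C n.q1 * X + C n.q2 := ⟨_, rfl⟩
  obtain ⟨py, hpy⟩ : ∃ q : K[X], q = C p0 * y0 + C p1 * y1 := ⟨_, rfl⟩
  obtain ⟨et, het⟩ : ∃ q : K[X], q = py ^ 2 - py * (C n.m1 * y0 + C n.m2 * y1) +
    (C n.h1 * y0 ^ 2 + C n.h2 * (y0 * y1) + C n.h3 * y1 ^ 2) := ⟨_, rfl⟩
  obtain ⟨dW, hdW⟩ : ∃ q : K[X], q = -et - C p0 * N := ⟨_, rfl⟩
  obtain ⟨Ph, hPh⟩ : ∃ q : K[X], q = C n.q1 * dW ^ 2 + C n.q1 * dW +
    C n.q1 * dW * (C n.m1 * N + C n.m3 * (C n.q1 * N ^ 2)) + C n.q1 * C p0 * N +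
    C n.q1 * C n.h1 * N ^ 2 + C n.q1 ^ 2 * C n.l1 * N ^ 3 + C n.k * C n.q1 ^ 3 * N ^ 4 := ⟨_, rfl⟩
  obtain ⟨ka, hka⟩ : ∃ q : K[X], q = y0 * (2 * C n.q1 * dW + dW * C n.q1 * N * C n.m1 + 3 * (C n.q1 * C p0) * N +
      2 * C n.h1 * C n.q1 * N ^ 2 + C n.q1 ^ 2 * N ^ 3 * C n.l1) +
    y1 * (C n.q2 * dW + dW * C n.q1 * N * C n.m2 + (C n.q2 * C p0 + C n.q1 * C p1) * N +
      C n.h2 * C n.q1 * N ^ 2 + C n.q1 ^ 2 * N ^ 3 * C n.l2) -
    py * (2 * dW * C n.q1 * N + C n.q1 * N + C n.q1 * N * (C n.m1 * N + C n.m3 * (C n.q1 * N ^ 2))) := ⟨_, rfl⟩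
  have hQ : C n.q1 * y0 ^ 2 + C n.q2 * (y0 * y1) + C n.q3 * y1 ^ 2 = C n.q1 * N ^ 2 := by
    rw [hy0, hy1, hN]; ring
  have hA : C n.a = C n.q1 * C p0 := by rw [ha, C_mul]
  have hB : C n.b = C n.q2 * C p0 + C n.q1 * C p1 := by rw [hb]; simp only [C_mul, C_add]
  have hC : C n.c = C n.q3 * C p0 + C n.q2 * C p1 := by rw [hc]; simp only [C_mul, C_add]
  have hD : C n.d = C n.q3 * C p1 := by rw [hd, C_mul]
  have e1 : n.F y0 y1 0 (-py) = 0 := by
    simp only [NF.F, Polynomial.algebraMap_eq, hA, hB, hC, hD, hpy]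
    ring
  have e2 : n.F N 0 (C n.q1 * N ^ 2) dW = N ^ 2 * Ph := by
    simp only [NF.F, Polynomial.algebraMap_eq, hA, hB, hC, hD, hPh]
    ring
  have e3' : n.DF N 0 (C n.q1 * N ^ 2) dW y0 y1 0 (-py) = N * ka := by
    simp only [NF.DF, Polynomial.algebraMap_eq, hA, hB, hC, hD, hka]
    ring
  have e4 : n.DF y0 y1 0 (-py) N 0 (C n.q1 * N ^ 2) dW = 0 := by
    simp only [NF.DF, Polynomial.algebraMap_eq, hA, hB, hC, hD, hdW, het, hpy]
    linear_combination (-(((C p0 * y0 + C p1 * y1) ^ 2 - (C p0 * y0 + C p1 * y1) *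
      (C n.m1 * y0 + C n.m2 * y1) + (C n.h1 * y0 ^ 2 + C n.h2 * (y0 * y1) + C n.h3 * y1 ^ 2)))) * hQ
  have e5 := F_tangent n y0 y1 0 (-py) N 0 (C n.q1 * N ^ 2) dW e1 e4
  rw [e2, e3'] at e5
  have e6 : n.F (N * Ph * y0 - ka * N) (N * Ph * y1) (-(ka * (C n.q1 * N ^ 2)))
      (-(N * Ph * py) - ka * dW) = 0 := by
    have h7 : N ^ 3 * n.F (N * Ph * y0 - ka * N) (N * Ph * y1) (-(ka * (C n.q1 * N ^ 2)))
      (-(N * Ph * py) - ka * dW) = 0 := by
      rw [← F_smul, ← e5]
      congr 1 <;> ring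
    exact (mul_eq_zero.1 h7).resolve_left (pow_ne_zero _ hN0)
  -- values at `s`
  have vN : aeval s N = 0 := hsN
  have vN' : algebraMap K (AlgebraicClosure K) n.q1 * s ^ 2 +
      algebraMap K (AlgebraicClosure K) n.q2 * s + algebraMap K (AlgebraicClosure K) n.q3 = 0 := by
    rw [hN] at hsN
    simpa using hsN
  have vy0 : aeval s y0 = algebraMap K (AlgebraicClosure K) n.q1 * s ^ 2 -
      algebraMap K (AlgebraicClosure K) n.q3 := by rw [hy0]; simp
  have vy1 : aeval s y1 = 2 * algebraMap K (AlgebraicClosure K) n.q1 * s +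
      algebraMap K (AlgebraicClosure K) n.q2 := by rw [hy1]; simp [map_ofNat]
  have vpy : aeval s py = algebraMap K (AlgebraicClosure K) p0 * aeval s y0 +
      algebraMap K (AlgebraicClosure K) p1 * aeval s y1 := by rw [hpy]; simp
  have hdL : algebraMap K (AlgebraicClosure K) n.q2 ^ 2 -
      4 * algebraMap K (AlgebraicClosure K) n.q1 * algebraMap K (AlgebraicClosure K) n.q3 ≠ 0 := by
    intro h
    apply hdisc
    apply (algebraMap K (AlgebraicClosure K)).injective
    simpa only [map_sub, map_mul, map_pow, map_ofNat, map_zero] using h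
  have hy1sq : (aeval s y1) ^ 2 = algebraMap K (AlgebraicClosure K) n.q2 ^ 2 -
      4 * algebraMap K (AlgebraicClosure K) n.q1 * algebraMap K (AlgebraicClosure K) n.q3 := by
    rw [vy1]; linear_combination (4 * algebraMap K (AlgebraicClosure K) n.q1) * vN'
  have hy1ne : aeval s y1 ≠ 0 := by
    intro h
    rw [h] at hy1sq
    exact hdL (by rw [← hy1sq]; ring)
  have hQs : algebraMap K (AlgebraicClosure K) n.q1 * (aeval s y0) ^ 2 +
      algebraMap K (AlgebraicClosure K) n.q2 * (aeval s y0 * aeval s y1) +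
      algebraMap K (AlgebraicClosure K) n.q3 * (aeval s y1) ^ 2 = 0 := by
    have := congrArg (aeval s) hQ
    simpa [vN] using this
  have vet : aeval s et = (aeval s py) ^ 2 - aeval s py *
      (algebraMap K (AlgebraicClosure K) n.m1 * aeval s y0 +
        algebraMap K (AlgebraicClosure K) n.m2 * aeval s y1) +
      (algebraMap K (AlgebraicClosure K) n.h1 * (aeval s y0) ^ 2 +
        algebraMap K (AlgebraicClosure K) n.h2 * (aeval s y0 * aeval s y1) +
        algebraMap K (AlgebraicClosure K) n.h3 * (aeval s y1) ^ 2) := by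
    rw [het]; simp
  have hA' : algebraMap K (AlgebraicClosure K) n.a = algebraMap K (AlgebraicClosure K) n.q1 *
      algebraMap K (AlgebraicClosure K) p0 := by rw [ha, map_mul]
  have hB' : algebraMap K (AlgebraicClosure K) n.b = algebraMap K (AlgebraicClosure K) n.q2 *
      algebraMap K (AlgebraicClosure K) p0 + algebraMap K (AlgebraicClosure K) n.q1 *
      algebraMap K (AlgebraicClosure K) p1 := by rw [hb]; simp only [map_mul, map_add]
  have hC' : algebraMap K (AlgebraicClosure K) n.c = algebraMap K (AlgebraicClosure K) n.q3 *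
      algebraMap K (AlgebraicClosure K) p0 + algebraMap K (AlgebraicClosure K) n.q2 *
      algebraMap K (AlgebraicClosure K) p1 := by rw [hc]; simp only [map_mul, map_add]
  have hD' : algebraMap K (AlgebraicClosure K) n.d = algebraMap K (AlgebraicClosure K) n.q3 *
      algebraMap K (AlgebraicClosure K) p1 := by rw [hd, map_mul]
  -- smoothness gives `et(s) ≠ 0`
  have hetne : aeval s et ≠ 0 := by
    intro h0
    have hv : (![aeval s y0, aeval s y1, 0, -(aeval s py)] : Fin 4 → AlgebraicClosure K) ≠ 0 := by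
      intro h
      have := congrFun h 1
      simp at this
      exact hy1ne this
    have hcub : cub a (![aeval s y0, aeval s y1, 0, -(aeval s py)] :
        Fin 4 → AlgebraicClosure K) = 0 := by
      rw [hn.1]
      have := congrArg (aeval s) e1
      rw [F_map] at this
      simpa using this
    obtain ⟨w, hw⟩ := hs _ hv hcub
    apply hw
    rw [hn.2]
    simp only [NF.DF, Matrix.cons_val_zero, Matrix.cons_val_one, Matrix.cons_val]
    rw [vet] at h0
    rw [hA', hB', hC', hD']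
    rw [vpy] at h0 ⊢
    linear_combination (algebraMap K (AlgebraicClosure K) p0 * w 0 +
      algebraMap K (AlgebraicClosure K) p1 * w 1 + w 3) * hQs + (w 2) * h0
  have vdW : aeval s dW = - aeval s et := by rw [hdW]; simp [vN]
  have vka : aeval s ka = -(aeval s et) * (algebraMap K (AlgebraicClosure K) n.q2 ^ 2 -
      4 * algebraMap K (AlgebraicClosure K) n.q1 * algebraMap K (AlgebraicClosure K) n.q3) := by
    rw [hka]
    simp only [map_add, map_sub, map_mul, map_pow, vN, vdW, aeval_C, map_ofNat]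
    rw [vy0, vy1]
    linear_combination (-2 * algebraMap K (AlgebraicClosure K) n.q1 * aeval s et) * vN'
  refine curve_of a n hn (N * Ph * y0 - ka * N) (N * Ph * y1) (-(ka * (C n.q1 * N ^ 2)))
    (-(N * Ph * py) - ka * dW) e6 s (-((aeval s et) ^ 2 *
      (algebraMap K (AlgebraicClosure K) n.q2 ^ 2 -
      4 * algebraMap K (AlgebraicClosure K) n.q1 * algebraMap K (AlgebraicClosure K) n.q3))) ?_ ?_ ?_
      ?_ ?_ ?_
  · exact neg_ne_zero.2 (mul_ne_zero (pow_ne_zero _ hetne) hdL)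
  · simp [vN]
  · simp [vN]
  · simp [vN]
  · simp only [map_sub, map_neg, map_mul, vN, vka, vdW]
    ring
  · right; right
    have hka0 : ka ≠ 0 := by
      intro h
      have : aeval s ka = 0 := by rw [h]; simp
      rw [vka] at this
      exact (mul_ne_zero (neg_ne_zero.2 hetne) hdL) this
    exact neg_ne_zero.2 (mul_ne_zero hka0 (mul_ne_zero (by simpa using hq1) (pow_ne_zero _ hN0)))

end Pool.Agent.H897R.CS
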