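import Pool.Agent.H897R.CS.Basic

/-! Tangent section = three conjugate lines through `x`. -/

set_option autoImplicit false

namespace Pool.Agent.H897R.CS

open Polynomial Pool.Agent.H574R3.CS

section defs
variable {K : Type} [Field K] {A : Type} [CommRing A] [Algebra K A] (n : NF K)

/-- tangent coordinate of the direction `(1, βw, 0)` at `(t,0,1,w)` -/
noncomputable def om (t w β : A) : A := -(n.DF t 0 1 w 1 (β * w) 0 0)

noncomputable def Ph (t w wb β : A) : A := n.F (w - wb) ((w - wb) * (β * w)) 0 (om n t w β)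

noncomputable def Gg (t w wb β : A) : A :=
  n.DF (w - wb) ((w - wb) * (β * w)) 0 (om n t w β) t 0 1 w

noncomputable def a0 (t w wb β : A) : A := Ph n t w wb β * t - Gg n t w wb β * (w - wb)
noncomputable def a1' (t w wb β : A) : A := -(Gg n t w wb β * (w - wb) * w)
noncomputable def a3 (t w wb β : A) : A := Ph n t w wb β * w - Gg n t w wb β * om n t w β

noncomputable def al (t w wb β : A) : A :=
  n.DF (a0 n t wb w β) (β * a1' n t wb w β) (Ph n t wb w β) (a3 n t wb w β)
    (a0 n t w wb β) (β * a1' n t w wb β) (Ph n t w wb β) (a3 n t w wb β)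

section maps
variable {B : Type} [CommRing B] [Algebra K B] (φ : A →ₐ[K] B)

theorem om_map (t w β : A) : φ (om n t w β) = om n (φ t) (φ w) (φ β) := by
  simp only [om, DF_map, map_neg, map_zero, map_one, map_mul]

theorem Ph_map (t w wb β : A) : φ (Ph n t w wb β) = Ph n (φ t) (φ w) (φ wb) (φ β) := by
  simp only [Ph, F_map, om_map, map_sub, map_zero, map_mul]

theorem Gg_map (t w wb β : A) : φ (Gg n t w wb β) = Gg n (φ t) (φ w) (φ wb) (φ β) := by
  simp only [Gg, DF_map, om_map, map_sub, map_zero, map_one, map_mul]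

theorem a0_map (t w wb β : A) : φ (a0 n t w wb β) = a0 n (φ t) (φ w) (φ wb) (φ β) := by
  simp only [a0, Ph_map, Gg_map, map_sub, map_mul]

theorem a1'_map (t w wb β : A) : φ (a1' n t w wb β) = a1' n (φ t) (φ w) (φ wb) (φ β) := by
  simp only [a1', Gg_map, map_sub, map_mul, map_neg]

theorem a3_map (t w wb β : A) : φ (a3 n t w wb β) = a3 n (φ t) (φ w) (φ wb) (φ β) := by
  simp only [a3, Ph_map, Gg_map, om_map, map_sub, map_mul]

theorem al_map (t w wb β : A) : φ (al n t w wb β) = al n (φ t) (φ w) (φ wb) (φ β) := by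
  simp only [al, DF_map, Ph_map, a0_map, a1'_map, a3_map, map_mul]

end maps

/-- linear form `ℓ(t) = m1 t + m3` -/
noncomputable def ell (t : A) : A := algebraMap K A n.m1 * t + algebraMap K A n.m3

/-- cubic `C(t) = a t³ + h1 t² + l1 t + k` -/
noncomputable def cc (t : A) : A := algebraMap K A n.a * t ^ 3 + algebraMap K A n.h1 * t ^ 2 +
  algebraMap K A n.l1 * t + algebraMap K A n.k

noncomputable def cc' (t : A) : A := 3 * algebraMap K A n.a * t ^ 2 +
  2 * algebraMap K A n.h1 * t + algebraMap K A n.l1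

noncomputable def DD (t : A) : A := ell n t ^ 2 - 4 * cc n t

noncomputable def GG (t : A) : A := cc' n t ^ 2 - algebraMap K A n.m1 * ell n t * cc' n t +
  algebraMap K A n.m1 ^ 2 * cc n t + (3 * algebraMap K A n.a * t + algebraMap K A n.h1) * DD n t

noncomputable def HH (t : A) : A := algebraMap K A n.a * DD n t ^ 2 +
  GG n t * (2 * cc' n t - algebraMap K A n.m1 * ell n t)

section maps2
variable {B : Type} [CommRing B] [Algebra K B] (φ : A →ₐ[K] B)

theorem ell_map (t : A) : φ (ell n t) = ell n (φ t) := by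
  simp only [ell, map_add, map_mul, AlgHom.commutes]

theorem cc_map (t : A) : φ (cc n t) = cc n (φ t) := by
  simp only [cc, map_add, map_mul, map_pow, AlgHom.commutes]

theorem cc'_map (t : A) : φ (cc' n t) = cc' n (φ t) := by
  simp only [cc', map_add, map_mul, map_pow, AlgHom.commutes, map_ofNat]

theorem DD_map (t : A) : φ (DD n t) = DD n (φ t) := by
  simp only [DD, map_sub, map_mul, map_pow, ell_map, cc_map, map_ofNat]

theorem GG_map (t : A) : φ (GG n t) = GG n (φ t) := by
  simp only [GG, map_sub, map_add, map_mul, map_pow, ell_map, cc_map, cc'_map, DD_map,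
    AlgHom.commutes, map_ofNat]

theorem HH_map (t : A) : φ (HH n t) = HH n (φ t) := by
  simp only [HH, map_sub, map_add, map_mul, map_pow, ell_map, cc'_map, DD_map, GG_map,
    AlgHom.commutes, map_ofNat]

end maps2

/-! pointwise facts -/

section pointwise
variable (t w wb β : A) (hq1 : n.q1 = 0) (hq2 : n.q2 = 0) (hq3 : n.q3 = 0)
  (hs : w + wb = -(ell n t)) (hp : w * wb = cc n t)
include hq1 hq2 hq3 hs hp

theorem F_y : n.F t 0 1 w = 0 := by
  simp only [NF.F, hq1, hq2, hq3, map_zero]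
  simp only [ell, cc] at hs hp
  linear_combination w * hs - hp

omit hp in
theorem DF_y : n.DF t 0 1 w (w - wb) ((w - wb) * (β * w)) 0 (om n t w β) = 0 := by
  have hlin : ∀ u : A, n.DF t 0 1 w (w - wb) ((w - wb) * (β * w)) 0 u =
      (w - wb) * n.DF t 0 1 w 1 (β * w) 0 0 + u * (2 * w + ell n t) := by
    intro u
    simp only [NF.DF, ell, hq1, hq2, hq3, map_zero]
    ring
  rw [hlin]
  have : n.DF t 0 1 w 1 (β * w) 0 0 = -(om n t w β) := by rw [om]; ring
  rw [this]
  linear_combination (om n t w β) * hs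

theorem F_a : n.F (a0 n t w wb β) (β * a1' n t w wb β) (Ph n t w wb β) (a3 n t w wb β) = 0 := by
  have h := F_tangent n t 0 1 w (w - wb) ((w - wb) * (β * w)) 0 (om n t w β)
    (F_y n t w wb hq1 hq2 hq3 hs hp) (DF_y n t w wb β hq1 hq2 hq3 hs)
  rw [← h]
  simp only [a0, a1', a3, Ph, Gg]
  congr 1 <;> ring

theorem F_aab : n.F
    (al n t w wb β * a0 n t w wb β - al n t wb w β * a0 n t wb w β)
    (al n t w wb β * (β * a1' n t w wb β) - al n t wb w β * (β * a1' n t wb w β))
    (al n t w wb β * Ph n t w wb β - al n t wb w β * Ph n t wb w β)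
    (al n t w wb β * a3 n t w wb β - al n t wb w β * a3 n t wb w β) = 0 := by
  have h := F_chord n _ _ _ _ _ _ _ _ (F_a n t w wb β hq1 hq2 hq3 hs hp)
    (F_a n t wb w β hq1 hq2 hq3 (by rw [← hs]; ring) (by rw [← hp]; ring))
  rw [← h]
  simp only [al]
  congr 1 <;> ring

end pointwise

end defs

/-! reduction modulo the quadratic -/

section red
variable {K : Type} [Field K] (n : NF K)

noncomputable def MM : K[X][X] := X ^ 2 + (C (ell n (X : K[X])) * X + C (cc n (X : K[X])))

theorem MM_monic : (MM n).Monic :=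
  monic_X_pow_add (lt_of_le_of_lt degree_linear_le (by norm_num))

theorem MM_degree : (MM n).degree = 2 := by
  have h : (C (ell n (X : K[X])) * X + C (cc n (X : K[X])) : K[X][X]).degree < 2 :=
    lt_of_le_of_lt degree_linear_le (by norm_num)
  rw [MM, degree_add_eq_left_of_degree_lt]
  · simp
  · simpa using h

noncomputable def ci (p : K[X][X]) : K[X] := (p %ₘ MM n).coeff 0
noncomputable def co (p : K[X][X]) : K[X] := (p %ₘ MM n).coeff 1

/-- evaluation -/
noncomputable def ev (τ w : AlgebraicClosure K) : K[X][X] →ₐ[K] AlgebraicClosure K :=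
  aevalAeval τ w

theorem ev_C (τ w : AlgebraicClosure K) (p : K[X]) : ev τ w (C p) = aeval τ p :=
  aevalAeval_C τ w p

theorem ev_X (τ w : AlgebraicClosure K) : ev τ w (X : K[X][X]) = w :=
  aevalAeval_Y τ w

theorem red (p : K[X][X]) (τ w : AlgebraicClosure K)
    (hw : w ^ 2 + (ell n τ * w + cc n τ) = 0) :
    ev τ w p = aeval τ (ci n p) + aeval τ (co n p) * w := by
  have h1 : p %ₘ MM n + MM n * (p /ₘ MM n) = p := modByMonic_add_div p (MM n)
  have h2 : (p %ₘ MM n).degree ≤ 1 := by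
    have := degree_modByMonic_lt p (MM_monic n)
    rw [MM_degree] at this
    have h5 : (p %ₘ MM n).natDegree < 2 ∨ p %ₘ MM n = 0 := by
      by_cases h0 : p %ₘ MM n = 0
      · right; exact h0
      · left
        rw [degree_eq_natDegree h0] at this
        exact_mod_cast this
    rcases h5 with h5 | h5
    · have h6 := degree_le_of_natDegree_le (n := 1) (p := p %ₘ MM n) (by omega)
      exact_mod_cast h6
    · rw [h5]; simp
  have h3 := eq_X_add_C_of_degree_le_one h2
  have h4 : ev τ w (MM n) = 0 := by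
    rw [MM]
    simp only [map_add, map_mul, map_pow, ev_C, ev_X, ell_map, cc_map, aeval_X]
    exact hw
  conv_lhs => rw [← h1]
  rw [map_add, map_mul, h4, zero_mul, add_zero, h3]
  simp only [map_add, map_mul, ev_C, ev_X, ci, co]
  ring

end red

theorem quad_root {L : Type} [Field L] [IsAlgClosed L] (b c : L) :
    ∃ w : L, w ^ 2 + (b * w + c) = 0 := by
  have hdeg : (C b * X + C c : L[X]).degree < 2 :=
    lt_of_le_of_lt degree_linear_le (by norm_num)
  have h : (X ^ 2 + (C b * X + C c) : L[X]).degree = 2 := by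
    rw [degree_add_eq_left_of_degree_lt]
    · simp
    · simpa using hdeg
  obtain ⟨w, hw⟩ := IsAlgClosed.exists_root (X ^ 2 + (C b * X + C c) : L[X])
    (by rw [h]; exact two_ne_zero)
  exact ⟨w, by simpa using hw⟩

section main
variable {K : Type} [Field K] (n : NF K)

/-- the four polynomials in `K[t][w]` -/
noncomputable def wb' : K[X][X] := -(C (ell n (X : K[X]))) - X

theorem ev_wb (τ w : AlgebraicClosure K) : ev τ w (wb' n) = -(ell n τ) - w := by
  simp only [wb', map_sub, map_neg, ev_C, ev_X, ell_map, aeval_X]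

noncomputable def alW (β : K[X]) : K[X][X] := al n (C X) X (wb' n) (C β)

/-- if `p` evaluates to `f τ w wb` at `(τ, w)`, the coefficient of `w` is the difference quotient -/
theorem co_spec (p : K[X][X]) (f : AlgebraicClosure K → AlgebraicClosure K → AlgebraicClosure K →
    AlgebraicClosure K) (hf : ∀ τ w, ev τ w p = f τ w (-(ell n τ) - w))
    (τ w wb : AlgebraicClosure K) (hs : w + wb = -(ell n τ)) (hp : w * wb = cc n τ) :
    (w - wb) * aeval τ (co n p) = f τ w wb - f τ wb w := by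
  have h1 := red n p τ w (by linear_combination w * hs - hp)
  have h2 := red n p τ wb (by linear_combination wb * hs - hp)
  rw [hf] at h1 h2
  have e1 : -(ell n τ) - w = wb := by linear_combination -hs
  have e2 : -(ell n τ) - wb = w := by linear_combination -hs
  rw [e1] at h1
  rw [e2] at h2
  rw [h1, h2]
  ring

noncomputable def P0 (β : K[X]) : K[X] := co n (alW n β * a0 n (C X) X (wb' n) (C β))
noncomputable def P1' (β : K[X]) : K[X] := co n (alW n β * a1' n (C X) X (wb' n) (C β))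
noncomputable def P2 (β : K[X]) : K[X] := co n (alW n β * Ph n (C X) X (wb' n) (C β))
noncomputable def P3 (β : K[X]) : K[X] := co n (alW n β * a3 n (C X) X (wb' n) (C β))

variable (β : K[X]) (τ w wb : AlgebraicClosure K) (hs : w + wb = -(ell n τ))
  (hp : w * wb = cc n τ)
include hs hp

theorem P0_spec : (w - wb) * aeval τ (P0 n β) =
    al n τ w wb (aeval τ β) * a0 n τ w wb (aeval τ β) -
      al n τ wb w (aeval τ β) * a0 n τ wb w (aeval τ β) :=
  co_spec n _ (fun τ w wb => al n τ w wb (aeval τ β) * a0 n τ w wb (aeval τ β))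
    (by intro τ w; simp only [alW, map_mul, al_map, a0_map, ev_C, ev_X, ev_wb, aeval_X])
    τ w wb hs hp

theorem P1_spec : (w - wb) * aeval τ (P1' n β) =
    al n τ w wb (aeval τ β) * a1' n τ w wb (aeval τ β) -
      al n τ wb w (aeval τ β) * a1' n τ wb w (aeval τ β) :=
  co_spec n _ (fun τ w wb => al n τ w wb (aeval τ β) * a1' n τ w wb (aeval τ β))
    (by intro τ w; simp only [alW, map_mul, al_map, a1'_map, ev_C, ev_X, ev_wb, aeval_X])
    τ w wb hs hp

theorem P2_spec : (w - wb) * aeval τ (P2 n β) =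
    al n τ w wb (aeval τ β) * Ph n τ w wb (aeval τ β) -
      al n τ wb w (aeval τ β) * Ph n τ wb w (aeval τ β) :=
  co_spec n _ (fun τ w wb => al n τ w wb (aeval τ β) * Ph n τ w wb (aeval τ β))
    (by intro τ w; simp only [alW, map_mul, al_map, Ph_map, ev_C, ev_X, ev_wb, aeval_X])
    τ w wb hs hp

theorem P3_spec : (w - wb) * aeval τ (P3 n β) =
    al n τ w wb (aeval τ β) * a3 n τ w wb (aeval τ β) -
      al n τ wb w (aeval τ β) * a3 n τ wb w (aeval τ β) :=
  co_spec n _ (fun τ w wb => al n τ w wb (aeval τ β) * a3 n τ w wb (aeval τ β))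
    (by intro τ w; simp only [alW, map_mul, al_map, a3_map, ev_C, ev_X, ev_wb, aeval_X])
    τ w wb hs hp

end main

/-- the polynomial vector lies on the surface -/
theorem F_P {K : Type} [Field K] (n : NF K) (β : K[X]) (hq1 : n.q1 = 0) (hq2 : n.q2 = 0)
    (hq3 : n.q3 = 0) (hD : DD n (X : K[X]) ≠ 0) :
    n.F (P0 n β) (β * P1' n β) (P2 n β) (P3 n β) = 0 := by
  have key : ∀ τ : AlgebraicClosure K,
      aeval τ (DD n (X : K[X]) * n.F (P0 n β) (β * P1' n β) (P2 n β) (P3 n β)) = 0 := by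
    intro τ
    obtain ⟨w, hw⟩ := quad_root (ell n τ) (cc n τ)
    obtain ⟨wb, hwb⟩ : ∃ wb, wb = -(ell n τ) - w := ⟨_, rfl⟩
    have hs : w + wb = -(ell n τ) := by rw [hwb]; ring
    have hp : w * wb = cc n τ := by rw [hwb]; linear_combination -hw
    have hd : (w - wb) ^ 2 = DD n τ := by
      rw [DD]
      linear_combination (w + wb - ell n τ) * hs - 4 * hp
    by_cases h0 : w - wb = 0
    · have : DD n τ = 0 := by rw [← hd, h0]; ring
      rw [map_mul, DD_map, aeval_X, this, zero_mul]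
    · have h1 : (w - wb) ^ 3 * aeval τ (n.F (P0 n β) (β * P1' n β) (P2 n β) (P3 n β)) = 0 := by
        rw [F_map, ← F_smul, map_mul]
        rw [P0_spec n β τ w wb hs hp, P2_spec n β τ w wb hs hp, P3_spec n β τ w wb hs hp]
        have h2 : (w - wb) * (aeval τ β * aeval τ (P1' n β)) =
          al n τ w wb (aeval τ β) * (aeval τ β * a1' n τ w wb (aeval τ β)) -
          al n τ wb w (aeval τ β) * (aeval τ β * a1' n τ wb w (aeval τ β)) := by
          linear_combination (aeval τ β) * P1_spec n β τ w wb hs hp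
        rw [h2]
        exact F_aab n τ w wb (aeval τ β) hq1 hq2 hq3 hs hp
      have h3 := (mul_eq_zero.1 h1).resolve_left (pow_ne_zero _ h0)
      rw [map_mul, h3, mul_zero]
  have h2 : (DD n (X : K[X]) * n.F (P0 n β) (β * P1' n β) (P2 n β) (P3 n β)) = 0 := by
    apply Polynomial.map_injective _ (algebraMap K (AlgebraicClosure K)).injective
    rw [Polynomial.map_zero]
    apply Polynomial.funext
    intro τ
    rw [eval_map_algebraMap, key τ, eval_zero]
  exact (mul_eq_zero.1 h2).resolve_left hD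

/-! values where `β = 0` -/

section zero
variable {K : Type} [Field K] {A : Type} [CommRing A] [Algebra K A] (n : NF K)
variable (t w wb : A) (hq1 : n.q1 = 0) (hq2 : n.q2 = 0) (hq3 : n.q3 = 0)
  (hs : w + wb = -(ell n t)) (hp : w * wb = cc n t)
include hq1 hq2 hq3 hs hp

omit hs hp in
theorem om_zero : om n t w 0 = -(algebraMap K A n.m1 * w + cc' n t) := by
  simp only [om, NF.DF, cc', hq1, hq2, hq3, map_zero]
  ring

omit hs hp in
theorem Ph_zero : Ph n t w wb 0 = algebraMap K A n.a * (w - wb) ^ 3 := by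
  simp only [Ph, NF.F, hq1, hq2, hq3, map_zero]
  ring

theorem Gg_zero : Gg n t w wb 0 = GG n t := by
  have hd : (w - wb) ^ 2 = DD n t := by
    rw [DD]
    linear_combination (w + wb - ell n t) * hs - 4 * hp
  rw [Gg, om_zero n t w hq1 hq2 hq3, GG, ← hd]
  simp only [NF.DF, hq1, hq2, hq3, map_zero]
  linear_combination (algebraMap K A n.m1) ^ 2 * hp + (algebraMap K A n.m1) * cc' n t * hs

theorem a0_swap : a0 n t wb w 0 = -(a0 n t w wb 0) := by
  rw [a0, a0, Gg_zero n t w wb hq1 hq2 hq3 hs hp, Gg_zero n t wb w hq1 hq2 hq3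
    (by rw [← hs]; ring) (by rw [← hp]; ring), Ph_zero n t w wb hq1 hq2 hq3,
    Ph_zero n t wb w hq1 hq2 hq3]
  ring

omit hs hp in
theorem Ph_swap : Ph n t wb w 0 = -(Ph n t w wb 0) := by
  rw [Ph_zero n t w wb hq1 hq2 hq3, Ph_zero n t wb w hq1 hq2 hq3]
  ring

theorem a3_swap : a3 n t wb w 0 = a3 n t w wb 0 + algebraMap K A n.m1 * a0 n t w wb 0 +
    algebraMap K A n.m3 * Ph n t w wb 0 := by
  rw [a3, a3, a0, Gg_zero n t w wb hq1 hq2 hq3 hs hp, Gg_zero n t wb w hq1 hq2 hq3
    (by rw [← hs]; ring) (by rw [← hp]; ring), Ph_zero n t w wb hq1 hq2 hq3,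
    Ph_zero n t wb w hq1 hq2 hq3, om_zero n t w hq1 hq2 hq3, om_zero n t wb hq1 hq2 hq3]
  simp only [ell] at hs
  linear_combination (-(algebraMap K A n.a * (w - wb) ^ 3)) * hs

theorem H_zero : 2 * a3 n t w wb 0 + algebraMap K A n.m1 * a0 n t w wb 0 +
    algebraMap K A n.m3 * Ph n t w wb 0 = HH n t := by
  have hd : (w - wb) ^ 2 = DD n t := by
    rw [DD]
    linear_combination (w + wb - ell n t) * hs - 4 * hp
  rw [a3, a0, Gg_zero n t w wb hq1 hq2 hq3 hs hp, Ph_zero n t w wb hq1 hq2 hq3,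
    om_zero n t w hq1 hq2 hq3, HH, ← hd]
  have hl : ell n t = algebraMap K A n.m1 * t + algebraMap K A n.m3 := rfl
  have hs' : w + wb = -(algebraMap K A n.m1 * t + algebraMap K A n.m3) := by rw [hs, hl]
  rw [hl]
  linear_combination (algebraMap K A n.a * (w - wb) ^ 3 + GG n t * algebraMap K A n.m1) * hs'

theorem al_zero : al n t w wb 0 = -(Ph n t w wb 0) * HH n t ^ 2 := by
  have hF := F_a n t w wb 0 hq1 hq2 hq3 hs hp
  rw [al, a0_swap n t w wb hq1 hq2 hq3 hs hp, Ph_swap n t w wb hq1 hq2 hq3,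
    a3_swap n t w wb hq1 hq2 hq3 hs hp, ← H_zero n t w wb hq1 hq2 hq3 hs hp]
  generalize a0 n t w wb 0 = x at *
  generalize a3 n t w wb 0 = u at *
  generalize Ph n t w wb 0 = z at *
  simp only [NF.F, NF.DF, hq1, hq2, hq3, map_zero, zero_mul] at hF ⊢
  linear_combination 3 * hF

theorem al_swap : al n t wb w 0 = Ph n t w wb 0 * HH n t ^ 2 := by
  rw [al_zero n t wb w hq1 hq2 hq3 (by rw [← hs]; ring) (by rw [← hp]; ring),
    Ph_swap n t w wb hq1 hq2 hq3]
  ring

end zero

section values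
variable {K : Type} [Field K] (n : NF K) (β : K[X])
variable (t w wb : AlgebraicClosure K) (hq1 : n.q1 = 0) (hq2 : n.q2 = 0) (hq3 : n.q3 = 0)
  (hs : w + wb = -(ell n t)) (hp : w * wb = cc n t) (hβ : aeval t β = 0) (hne : w - wb ≠ 0)
include hq1 hq2 hq3 hs hp hβ hne

theorem v0 : aeval t (P0 n β) = 0 := by
  have h := P0_spec n β t w wb hs hp
  rw [hβ, al_zero n t w wb hq1 hq2 hq3 hs hp, al_swap n t w wb hq1 hq2 hq3 hs hp,
    a0_swap n t w wb hq1 hq2 hq3 hs hp] at h
  refine (mul_eq_zero.1 (?_ : (w - wb) * aeval t (P0 n β) = 0)).resolve_left hne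
  rw [h]; ring

theorem v2 : aeval t (P2 n β) = 0 := by
  have h := P2_spec n β t w wb hs hp
  rw [hβ, al_zero n t w wb hq1 hq2 hq3 hs hp, al_swap n t w wb hq1 hq2 hq3 hs hp,
    Ph_swap n t w wb hq1 hq2 hq3] at h
  refine (mul_eq_zero.1 (?_ : (w - wb) * aeval t (P2 n β) = 0)).resolve_left hne
  rw [h]; ring

theorem v3 : aeval t (P3 n β) = -(algebraMap K (AlgebraicClosure K) n.a * (w - wb) ^ 2 *
    HH n t ^ 3) := by
  have h := P3_spec n β t w wb hs hp
  rw [hβ, al_zero n t w wb hq1 hq2 hq3 hs hp, al_swap n t w wb hq1 hq2 hq3 hs hp,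
    a3_swap n t w wb hq1 hq2 hq3 hs hp] at h
  have h2 := H_zero n t w wb hq1 hq2 hq3 hs hp
  have h3 := Ph_zero n t w wb hq1 hq2 hq3
  apply mul_left_cancel₀ hne
  rw [h]
  rw [← h2]
  rw [h3]
  ring

theorem v1 : aeval t (P1' n β) = algebraMap K (AlgebraicClosure K) n.a * (w - wb) ^ 4 *
    HH n t ^ 2 * GG n t := by
  have h := P1_spec n β t w wb hs hp
  rw [hβ, al_zero n t w wb hq1 hq2 hq3 hs hp, al_swap n t w wb hq1 hq2 hq3 hs hp,
    a1', a1', Gg_zero n t w wb hq1 hq2 hq3 hs hp, Gg_zero n t wb w hq1 hq2 hq3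
    (by rw [← hs]; ring) (by rw [← hp]; ring)] at h
  have h3 := Ph_zero n t w wb hq1 hq2 hq3
  apply mul_left_cancel₀ hne
  rw [h, h3]
  ring

end values

/-- generic case: a curve from a plane section that is not too special -/
theorem generic {K : Type} [Field K] (a : Ten K) (n : NF K) (hn : IsNF a n) (hq1 : n.q1 = 0)
    (hq2 : n.q2 = 0) (hq3 : n.q3 = 0) (ha : n.a ≠ 0) (hD : DD n (X : K[X]) ≠ 0)
    (hH : HH n (X : K[X]) ≠ 0) (hG : GG n (X : K[X]) ≠ 0) : Curve a e3 := by
  obtain ⟨N, hN⟩ : ∃ N : K[X], N = DD n (X : K[X]) * HH n (X : K[X]) * GG n (X : K[X]) :=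
    ⟨_, rfl⟩
  have hN0 : N ≠ 0 := by rw [hN]; exact mul_ne_zero (mul_ne_zero hD hH) hG
  obtain ⟨β, hβ⟩ : ∃ β : K[X], β = 1 + X * N := ⟨_, rfl⟩
  have hdeg : β.degree ≠ 0 := by
    have h1 : (1 : K[X]).degree < (X * N).degree := by
      rw [degree_one, degree_mul, degree_X]
      have h2 : (0 : WithBot ℕ) ≤ N.degree := zero_le_degree_iff.2 hN0
      calc (0 : WithBot ℕ) < 1 := by norm_num
        _ = 1 + 0 := by rw [add_zero]
        _ ≤ 1 + N.degree := by gcongr
    rw [hβ, degree_add_eq_right_of_degree_lt h1]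
    intro h3
    rw [h3, degree_one] at h1
    exact lt_irrefl _ h1
  obtain ⟨t, ht⟩ := IsAlgClosed.exists_aeval_eq_zero (AlgebraicClosure K) β hdeg
  have hNt : aeval t N ≠ 0 := by
    intro h
    rw [hβ] at ht
    simp [h] at ht
  have hNt' : DD n t * HH n t * GG n t ≠ 0 := by
    rw [hN] at hNt
    simpa only [map_mul, DD_map, HH_map, GG_map, aeval_X] using hNt
  have hDt : DD n t ≠ 0 := left_ne_zero_of_mul (left_ne_zero_of_mul hNt')
  have hHt : HH n t ≠ 0 := right_ne_zero_of_mul (left_ne_zero_of_mul hNt')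
  have hGt : GG n t ≠ 0 := right_ne_zero_of_mul hNt'
  obtain ⟨w, hw⟩ := quad_root (ell n t) (cc n t)
  obtain ⟨wb, hwb⟩ : ∃ wb, wb = -(ell n t) - w := ⟨_, rfl⟩
  have hs : w + wb = -(ell n t) := by rw [hwb]; ring
  have hp : w * wb = cc n t := by rw [hwb]; linear_combination -hw
  have hd : (w - wb) ^ 2 = DD n t := by
    rw [DD]
    linear_combination (w + wb - ell n t) * hs - 4 * hp
  have hne : w - wb ≠ 0 := by
    intro h
    rw [h] at hd
    exact hDt (by rw [← hd]; ring)
  have haL : algebraMap K (AlgebraicClosure K) n.a ≠ 0 := by simpa using ha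
  have hβ0 : β ≠ 0 := by
    intro h
    have h1 : β.eval 0 = 1 := by rw [hβ]; simp
    rw [h] at h1
    simp at h1
  have hP1 : P1' n β ≠ 0 := by
    intro h
    have h1 := v1 n β t w wb hq1 hq2 hq3 hs hp ht hne
    rw [h, map_zero] at h1
    exact (mul_ne_zero (mul_ne_zero (mul_ne_zero haL (pow_ne_zero _ hne)) (pow_ne_zero _ hHt))
      hGt) h1.symm
  refine curve_of a n hn (P0 n β) (β * P1' n β) (P2 n β) (P3 n β)
    (F_P n β hq1 hq2 hq3 hD) t (-(algebraMap K (AlgebraicClosure K) n.a * (w - wb) ^ 2 *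
    HH n t ^ 3)) ?_ (v0 n β t w wb hq1 hq2 hq3 hs hp ht hne) ?_
    (v2 n β t w wb hq1 hq2 hq3 hs hp ht hne) (v3 n β t w wb hq1 hq2 hq3 hs hp ht hne)
    (Or.inr (Or.inl (mul_ne_zero hβ0 hP1)))
  · exact neg_ne_zero.2 (mul_ne_zero (mul_ne_zero haL (pow_ne_zero _ hne)) (pow_ne_zero _ hHt))
  · rw [map_mul, ht, zero_mul]

end Pool.Agent.H897R.CS
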