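import Pool.Agent.H897R.CS.CaseB

set_option autoImplicit false

namespace Pool.Agent.H897R.CS

open Polynomial Pool.Agent.H574R3.CS

section
variable {K : Type} [Field K] (n : NF K)

theorem q4 (e4 e3 e2 e1 e0 : K) :
    (C e4 * X ^ 4 + C e3 * X ^ 3 + C e2 * X ^ 2 + C e1 * X + C e0 : K[X]).coeff 4 = e4 ∧
    (C e4 * X ^ 4 + C e3 * X ^ 3 + C e2 * X ^ 2 + C e1 * X + C e0 : K[X]).coeff 3 = e3 ∧
    (C e4 * X ^ 4 + C e3 * X ^ 3 + C e2 * X ^ 2 + C e1 * X + C e0 : K[X]).coeff 0 = e0 := by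
  simp [coeff_X, coeff_C]

theorem q3 (e3 e2 e1 e0 : K) :
    (C e3 * X ^ 3 + C e2 * X ^ 2 + C e1 * X + C e0 : K[X]).coeff 3 = e3 := by
  simp [coeff_X, coeff_C]

theorem q2 (e2 e1 e0 : K) :
    (C e2 * X ^ 2 + C e1 * X + C e0 : K[X]).coeff 2 = e2 := by
  simp [coeff_X, coeff_C]

theorem DD_expand : DD n (X : K[X]) = C (-4 * n.a) * X ^ 3 + C (n.m1 ^ 2 - 4 * n.h1) * X ^ 2 +
    C (2 * n.m1 * n.m3 - 4 * n.l1) * X + C (n.m3 ^ 2 - 4 * n.k) := by
  simp only [DD, ell, cc, Polynomial.algebraMap_eq, C_mul, C_sub, C_pow, C_neg, map_ofNat]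
  ring

theorem GG_expand : GG n (X : K[X]) = C (-3 * n.a ^ 2) * X ^ 4 +
    C (n.a * (n.m1 ^ 2 - 4 * n.h1)) * X ^ 3 + C (3 * n.a * (n.m1 * n.m3 - 2 * n.l1)) * X ^ 2 +
    C (3 * n.a * (n.m3 ^ 2 - 4 * n.k)) * X +
    C (n.l1 ^ 2 - n.m1 * n.m3 * n.l1 + n.m1 ^ 2 * n.k + n.h1 * (n.m3 ^ 2 - 4 * n.k)) := by
  simp only [GG, DD, ell, cc, cc', Polynomial.algebraMap_eq, C_mul, C_sub, C_add, C_pow, C_neg,
    map_ofNat]
  ring

theorem DD_deg : (DD n (X : K[X])).natDegree ≤ 3 := by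
  rw [DD_expand]; compute_degree

theorem DD_c3 : (DD n (X : K[X])).coeff 3 = -4 * n.a := by
  rw [DD_expand, q3]

theorem GG_deg : (GG n (X : K[X])).natDegree ≤ 4 := by
  rw [GG_expand]; compute_degree

theorem GG_c4 : (GG n (X : K[X])).coeff 4 = -3 * n.a ^ 2 := by
  rw [GG_expand, (q4 _ _ _ _ _).1]

theorem GG_c3 : (GG n (X : K[X])).coeff 3 = n.a * (n.m1 ^ 2 - 4 * n.h1) := by
  rw [GG_expand, (q4 _ _ _ _ _).2.1]

theorem GG_c0 : (GG n (X : K[X])).coeff 0 = n.l1 ^ 2 - n.m1 * n.m3 * n.l1 + n.m1 ^ 2 * n.k +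
    n.h1 * (n.m3 ^ 2 - 4 * n.k) := by
  rw [GG_expand, (q4 _ _ _ _ _).2.2]

theorem L_expand : (2 * cc' n (X : K[X]) - algebraMap K K[X] n.m1 * ell n X) =
    C (6 * n.a) * X ^ 2 + C (4 * n.h1 - n.m1 ^ 2) * X + C (2 * n.l1 - n.m1 * n.m3) := by
  simp only [cc', ell, Polynomial.algebraMap_eq, C_mul, C_sub, C_add, C_pow, C_neg,
    map_ofNat]
  ring

theorem HH_c6 : (HH n (X : K[X])).coeff 6 = -2 * n.a ^ 3 := by
  have h1 : (2 * cc' n (X : K[X]) - algebraMap K K[X] n.m1 * ell n X).natDegree ≤ 2 := by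
    rw [L_expand]; compute_degree
  have h2 : (2 * cc' n (X : K[X]) - algebraMap K K[X] n.m1 * ell n X).coeff 2 = 6 * n.a := by
    rw [L_expand, q2]
  have h3 : (GG n (X : K[X]) * (2 * cc' n (X : K[X]) - algebraMap K K[X] n.m1 * ell n X)).coeff
      (4 + 2) = -3 * n.a ^ 2 * (6 * n.a) := by
    rw [coeff_mul_add_eq_of_natDegree_le (GG_deg n) h1, GG_c4, h2]
  have h4 : (DD n (X : K[X]) ^ 2).coeff (2 * 3) = (-4 * n.a) ^ 2 := by
    rw [coeff_pow_of_natDegree_le (DD_deg n), DD_c3]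
  have h5 : (C n.a * DD n (X : K[X]) ^ 2).coeff 6 = n.a * (-4 * n.a) ^ 2 := by
    rw [coeff_C_mul]
    exact congrArg _ h4
  rw [HH, coeff_add]
  have h6 : (GG n (X : K[X]) * (2 * cc' n (X : K[X]) - algebraMap K K[X] n.m1 * ell n X)).coeff
      6 = -3 * n.a ^ 2 * (6 * n.a) := h3
  rw [h6, Polynomial.algebraMap_eq, h5]
  ring

theorem GG_ne (ha : n.a ≠ 0) (h3 : (3 : K) ≠ 0) : GG n (X : K[X]) ≠ 0 := by
  intro h
  have := GG_c4 n
  rw [h, coeff_zero] at this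
  have h4 : (3 : K) * n.a ^ 2 = 0 := by linear_combination this
  exact mul_ne_zero h3 (pow_ne_zero _ ha) h4

theorem DD_ne (ha : n.a ≠ 0) (h2 : (2 : K) ≠ 0) : DD n (X : K[X]) ≠ 0 := by
  intro h
  have := DD_c3 n
  rw [h, coeff_zero] at this
  have h4 : (2 : K) * (2 * n.a) = 0 := by linear_combination this
  exact mul_ne_zero h2 (mul_ne_zero h2 ha) h4

theorem HH_ne (ha : n.a ≠ 0) (h2 : (2 : K) ≠ 0) : HH n (X : K[X]) ≠ 0 := by
  intro h
  have := HH_c6 n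
  rw [h, coeff_zero] at this
  have h4 : (2 : K) * n.a ^ 3 = 0 := by linear_combination this
  exact mul_ne_zero h2 (pow_ne_zero _ ha) h4

/-- characteristic two -/
theorem DH2 (ha : n.a ≠ 0) (h2 : (2 : K) = 0) (hm : ¬ (n.m1 = 0 ∧ n.m3 = 0)) :
    DD n (X : K[X]) ≠ 0 ∧ HH n (X : K[X]) ≠ 0 := by
  have h2' : (2 : K[X]) = 0 := by
    have := congrArg (C : K → K[X]) h2
    simpa only [map_ofNat, map_zero] using this
  have hell : ell n (X : K[X]) = C n.m1 * X + C n.m3 := rfl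
  have hl0 : ell n (X : K[X]) ≠ 0 := by
    intro h
    rw [hell] at h
    apply hm
    constructor
    · have := congrArg (fun p => coeff p 1) h
      simpa [coeff_C] using this
    · have := congrArg (fun p => coeff p 0) h
      simpa [coeff_C] using this
  have hD : DD n (X : K[X]) = ell n (X : K[X]) ^ 2 := by
    rw [DD]
    linear_combination (-2 * cc n (X : K[X])) * h2'
  have hH : HH n (X : K[X]) = ell n (X : K[X]) *
      (C n.a * ell n (X : K[X]) ^ 3 - C n.m1 * GG n (X : K[X])) := by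
    rw [HH, hD, Polynomial.algebraMap_eq]
    linear_combination (GG n (X : K[X]) * cc' n (X : K[X])) * h2'
  have hl1 : (ell n (X : K[X])).natDegree ≤ 1 := by rw [hell]; compute_degree
  refine ⟨by rw [hD]; exact pow_ne_zero _ hl0, ?_⟩
  rw [hH]
  refine mul_ne_zero hl0 ?_
  by_cases hm1 : n.m1 = 0
  · rw [hm1, C_0, zero_mul, sub_zero]
    exact mul_ne_zero (by simpa using ha) (pow_ne_zero _ hl0)
  · intro h
    have h3 := congrArg (fun p => coeff p 4) h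
    have h4 : (ell n (X : K[X]) ^ 3).coeff 4 = 0 := by
      apply coeff_eq_zero_of_natDegree_lt
      have := natDegree_pow_le_of_le 3 hl1
      omega
    simp only [coeff_sub, coeff_C_mul, GG_c4, h4, coeff_zero] at h3
    have h5 : n.m1 * n.a ^ 2 = 0 := by
      linear_combination h3 - n.m1 * n.a ^ 2 * h2
    exact mul_ne_zero hm1 (pow_ne_zero _ ha) h5

end

/-- characteristic two, `m1 = m3 = 0`: the section `Y = 0` is cuspidal -/
theorem special2 {K : Type} [Field K] [PerfectField K] (a : Ten K) (n : NF K) (hn : IsNF a n)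
    (hq1 : n.q1 = 0) (hq2 : n.q2 = 0) (hq3 : n.q3 = 0) (ha : n.a ≠ 0) (h2 : (2 : K) = 0)
    (hm1 : n.m1 = 0) (hm3 : n.m3 = 0) : Curve a e3 := by
  have hc : CharP K 2 := CharTwo.of_one_ne_zero_of_two_eq_zero one_ne_zero h2
  have hp : PerfectRing K 2 := PerfectField.toPerfectRing 2
  have sq : ∀ x : K, ∃ y : K, y ^ 2 = x := by
    intro x
    obtain ⟨s, hs⟩ := surjective_frobenius K 2 x
    exact ⟨s, by rw [← hs, frobenius_def]⟩
  obtain ⟨ra, hra⟩ := sq n.a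
  obtain ⟨rh, hrh⟩ := sq n.h1
  obtain ⟨rl, hrl⟩ := sq n.l1
  obtain ⟨rk, hrk⟩ := sq n.k
  have h2' : (2 : K[X]) = 0 := by
    have := congrArg (C : K → K[X]) h2
    simpa only [map_ofNat, map_zero] using this
  have hF : n.F (X : K[X]) 0 (X ^ 3) (C ra + C rh * X + C rl * X ^ 2 + C rk * X ^ 3) = 0 := by
    simp only [NF.F, Polynomial.algebraMap_eq, hq1, hq2, hq3, hm1, hm3, C_0, ← hra, ← hrh, ← hrl,
      ← hrk, C_pow]
    linear_combination (X ^ 3 * (C ra ^ 2 + C rh ^ 2 * X ^ 2 + C rl ^ 2 * X ^ 4 + C rk ^ 2 * X ^ 6 +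
      (C ra * (C rh * X) + C ra * (C rl * X ^ 2) + C ra * (C rk * X ^ 3) +
       (C rh * X) * (C rl * X ^ 2) + (C rh * X) * (C rk * X ^ 3) +
       (C rl * X ^ 2) * (C rk * X ^ 3)))) * h2'
  refine curve_of a n hn X 0 (X ^ 3) (C ra + C rh * X + C rl * X ^ 2 + C rk * X ^ 3) hF 0
    (algebraMap K (AlgebraicClosure K) ra) ?_ ?_ ?_ ?_ ?_ (Or.inl X_ne_zero)
  · intro h
    have h5 : ra = 0 := by simpa using h
    apply ha
    rw [← hra, h5]; ring
  · simp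
  · simp
  · simp
  · simp

/-- characteristic three, `G = 0`: the section `Y = 0` is cuspidal -/
theorem special3 {K : Type} [Field K] [PerfectField K] (a : Ten K) (n : NF K) (hn : IsNF a n)
    (hq1 : n.q1 = 0) (hq2 : n.q2 = 0) (hq3 : n.q3 = 0) (ha : n.a ≠ 0) (h3 : (3 : K) = 0)
    (hG : GG n (X : K[X]) = 0) : Curve a e3 := by
  have e1 : n.h1 = n.m1 ^ 2 := by
    have := GG_c3 n
    rw [hG, coeff_zero] at this
    have h4 : n.a * (n.m1 ^ 2 - n.h1) = 0 := by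
      linear_combination -this + n.a * n.h1 * h3
    have h5 := (mul_eq_zero.1 h4).resolve_left ha
    linear_combination -h5
  have e2 : n.l1 = -(n.m1 * n.m3) := by
    have := GG_c0 n
    rw [hG, coeff_zero, e1] at this
    have h4 : (n.l1 + n.m1 * n.m3) ^ 2 = 0 := by
      linear_combination -this + (n.l1 * n.m1 * n.m3 + n.m1 ^ 2 * n.k) * h3
    have h5 := pow_eq_zero_iff (two_ne_zero) |>.1 h4
    linear_combination h5
  have hc : CharP K 3 := by
    refine (CharP.charP_iff_prime_eq_zero Nat.prime_three).2 ?_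
    exact_mod_cast h3
  have hfact : Fact (Nat.Prime 3) := ⟨Nat.prime_three⟩
  have hp : PerfectRing K 3 := PerfectField.toPerfectRing 3
  obtain ⟨g, hg⟩ := surjective_frobenius K 3 ((n.k - n.m3 ^ 2) / n.a)
  rw [frobenius_def] at hg
  have hg' : n.a * g ^ 3 = n.k - n.m3 ^ 2 := by rw [hg]; field_simp
  have hgC : C n.a * C g ^ 3 = C n.k - C n.m3 ^ 2 := by
    rw [← C_pow, ← C_mul, hg']; simp
  have h3' : (3 : K[X]) = 0 := by
    have := congrArg (C : K → K[X]) h3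
    simpa only [map_ofNat, map_zero] using this
  obtain ⟨U, hU⟩ : ∃ U : K[X], U = -(C n.a * X) - C g * X ^ 3 := ⟨_, rfl⟩
  have hU3 : C n.a * U ^ 3 = -(C n.a ^ 4 * X ^ 3) - (C n.k - C n.m3 ^ 2) * X ^ 9 := by
    rw [← hgC, hU]
    linear_combination (-(C n.a * ((C n.a * X) ^ 2 * (C g * X ^ 3) +
      (C n.a * X) * (C g * X ^ 3) ^ 2))) * h3'
  have hF : n.F U 0 (X ^ 3) (C n.a ^ 2 + C n.m1 * U + C n.m3 * X ^ 3) = 0 := by
    simp only [NF.F, Polynomial.algebraMap_eq, hq1, hq2, hq3, C_0, e1, e2, C_pow, C_neg, C_mul]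
    linear_combination hU3 + (X ^ 3 * (C n.a ^ 2 * (C n.m1 * U + C n.m3 * X ^ 3) +
      (C n.m1 * U) ^ 2 + (C n.m3 * X ^ 3) ^ 2 + C n.m1 * U * (C n.m3 * X ^ 3))) * h3'
  refine curve_of a n hn U 0 (X ^ 3) (C n.a ^ 2 + C n.m1 * U + C n.m3 * X ^ 3) hF 0
    (algebraMap K (AlgebraicClosure K) n.a ^ 2) ?_ ?_ ?_ ?_ ?_
    (Or.inr (Or.inr (pow_ne_zero _ X_ne_zero)))
  · exact pow_ne_zero _ (by simpa using ha)
  · simp [hU]
  · simp
  · simp
  · simp [hU]

/-- Case B -/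
theorem caseB {K : Type} [Field K] [PerfectField K] (a : Ten K) (n : NF K) (hn : IsNF a n)
    (hq1 : n.q1 = 0) (hq2 : n.q2 = 0) (hq3 : n.q3 = 0) (hA : n.Aniso) : Curve a e3 := by
  have ha : n.a ≠ 0 := by
    intro h
    have := hA 1 0 (by rw [h]; ring)
    exact one_ne_zero this.1
  by_cases h2 : (2 : K) = 0
  · have h3 : (3 : K) ≠ 0 := by
      intro h3
      have : (1 : K) = 0 := by linear_combination h3 - h2
      exact one_ne_zero this
    by_cases hm : n.m1 = 0 ∧ n.m3 = 0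
    · exact special2 a n hn hq1 hq2 hq3 ha h2 hm.1 hm.2
    · obtain ⟨hD, hH⟩ := DH2 n ha h2 hm
      exact generic a n hn hq1 hq2 hq3 ha hD hH (GG_ne n ha h3)
  · by_cases hG : GG n (X : K[X]) = 0
    · have h3 : (3 : K) = 0 := by
        by_contra h3
        exact GG_ne n ha h3 hG
      exact special3 a n hn hq1 hq2 hq3 ha h3 hG
    · exact generic a n hn hq1 hq2 hq3 ha (DD_ne n ha h2) (HH_ne n ha h2) hG

end Pool.Agent.H897R.CS
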